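import Pool.Agent.Results.MP_130685_nt.RandomOrbits
import Pool.Agent.U569.APL.Null

/-!
# Zilber-Pink in `Y(1)^n` for families of rational curves at parameters formed from arbitrary sets of residues

`Y(1)^n` is identified with `ℂ^n` by the elliptic modular function. `ZilberPink Γ G S` (starting file `RandomOrbits`): the
curve `S` has at most `G` points on special subvarieties of codimension at least two, all these points are on the special
subvarieties defined by an isogeny of degree at most `G` between two of the coordinates, and `S` is not contained in a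
proper special subvariety; the constants of the special subvarieties are singular moduli, or arbitrary numbers which are
integral over the ring generated by a finite set `Γ` of algebraic numbers.

*Families.*  Let `P_i (u; s, t)`, `Q_i (u; s, t)`, `i = 1, …, n`, be arbitrary forms of degree `d ≥ 1` in
`(s, t)` whose coefficients are integral polynomials in finitely many parameters `u_j`, `j ∈ J`, such that
the `n` resultants of `P_i`, `Q_i` and the resultants of `P_i Q_i`, `P_j Q_j`, `i ≠ j`, are not identically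
zero (`NoCommonZeros A`).  For integers `m` and `u` one has the rational curve `V (m, u)` (`member A (m, u)`) with the
parametrization `x_i = P_i (u; s, t) / (m Q_i (u; s, t))`, `(s : t) ∈ ℙ¹`.

*Parameters.* Let a sequence (`j = 0, 1, 2, …`) of finite families of vectors `(m, u)` with `r = 1 + |J|` integral
coordinates be given. The vectors of the `j`-th family are `c₀ + y`, `c₀` an arbitrary integral vector (depending on `j`, of
any size) and `y` one of the following vectors (represented by `0, …, q - 1`):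

* `y` in any family of vectors modulo some `q` (depending on `j`), whose nontrivial Fourier coefficients are at most
  `1 / (Z (42 + 3 log q) ^ r)`, where `Z → ∞`, `Z ≤ q`;
* `β(x, z) + u(x) + w(z)` modulo a prime `P → ∞`, where `β : K ^ a × K ^ b → K ^ r` is bilinear, the nontrivial
  combinations of its coordinates have rank at least `ρ`, `x` and `z` are in ARBITRARY sets `E` and `F` with
  `|E| |F| ≥ P ^ (a + b - ρ + δ)`, `u` and `w` are arbitrary functions (for `δ > 0` fixed);
* the same for `β(x, z) = x z`, `x` and `z` in ARBITRARY subsets of the field of `P ^ r` elements,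
  `|E| |F| ≥ P ^ (r + δ)`;
* polynomials in several variables of degree at most `P ^ (δ / 4)`, all nontrivial combinations of which have a monomial
  with at least two variables, plus arbitrary functions of the single variables, on products of ARBITRARY sets of at
  least `P ^ (1 / 2 + δ)` residues;
* polynomials in one variable of degree at most `P ^ (δ / 4)`, no nontrivial combination of which is constant, on any
  subgroup of the multiplicative group modulo `P` with at least `P ^ (1 / 2 + δ)` elements.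

**Theorem.** (1) For every family of curves, every `Γ` and every `ε > 0` there is a bound `G`, which does not depend on the
sequence of the families of parameters, such that for large `j` the Zilber-Pink conjecture holds with the bound `G` for
`V (m, u)` for all but the fraction `ε` of the parameters in the `j`-th family. (2) There are exceptions `E j`,
`|E j| = o(size)`, such that for ALL families of curves (all `n`, `d`, `P_i`, `Q_i`) and all `Γ`, for large `j` the
Zilber-Pink conjecture holds (with some bound `G`) for `V (m, u)` for all the parameters of the `j`-th family outside of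
`E j`.

New: the families of parameters. The local theorem is `good_of_prime` (`RandomOrbits`, starting library `Y226.ZR`), the
density of the residue classes is that of `N265.ORB`; few members of the families are in a small set of residue classes by
the theorem of the starting library `N384.VF` on vectors of residues; the estimates of the Fourier coefficients on
arbitrary sets are in `U569/APL`.
-/

set_option autoImplicit false

namespace Pool.Agent.Results.MP_130685_nt.ArbitrarySets

open Filter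
open Pool.Agent.Results.MP_130685_nt.RandomOrbits
open Pool.Agent.N24.RW (ProNull clo)
open Pool.Agent.U569.APL

section
variable {J : Type} [Fintype J] [DecidableEq J]

/-- no large prime divides `m` and not the value of `R` -/
def BadT (R : MvPolynomial J ℤ) (T : ℕ) : Set (Option J → ℤ) :=
  {c | ¬ ∃ p : ℕ, p.Prime ∧ T < p ∧ (p : ℤ) ∣ c none ∧
    ¬ (p : ℤ) ∣ MvPolynomial.eval (fun j => c (some j)) R}

theorem mem_OmR (R : MvPolynomial J ℤ) (p : ℕ) (c : Option J → ℤ) :
    (fun i => (c i : ZMod p)) ∈ Pool.Agent.N265.ORB.OmR R p ↔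
      (p : ℤ) ∣ c none ∧ ¬ (p : ℤ) ∣ MvPolynomial.eval (fun j => c (some j)) R := by
  unfold Pool.Agent.N265.ORB.OmR
  rw [Set.mem_ofPred_eq, Pool.Agent.N265.ORB.eval_red p R (fun j => c (some j)), Ne,
    ZMod.intCast_zmod_eq_zero_iff_dvd, ZMod.intCast_zmod_eq_zero_iff_dvd]

theorem badT_null {R : MvPolynomial J ℤ} (hR : R ≠ 0) (T : ℕ) : ProNull (BadT R T) := by
  intro M hM ε hε
  obtain ⟨P, hP, hB⟩ := Pool.Agent.N265.ORB.bad_small hR T M hM ε hε
  have hpos : 0 < ∏ p ∈ P, p := Finset.prod_pos fun p hp => (hP p hp).1.pos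
  have : NeZero (∏ p ∈ P, p) := ⟨hpos.ne'⟩
  refine ⟨∏ p ∈ P, p, hpos, Nat.Coprime.prod_left fun p hp => (hP p hp).2.2, le_trans ?_ hB⟩
  refine Nat.cast_le.2 (Set.ncard_le_ncard (Set.image_mono ?_) (Set.toFinite _))
  intro c hc p hp hmem
  obtain ⟨h1, h2⟩ := (mem_OmR R p c).1 hmem
  exact hc ⟨p, (hP p hp).1, (hP p hp).2.1, h1, h2⟩

omit [DecidableEq J] in
theorem zero_null : ProNull {c : Option J → ℤ | c none = 0} := by
  have h := (clo (Option J)).2.2.2.1 (MvPolynomial.X none : MvPolynomial (Option J) ℤ) (MvPolynomial.X_ne_zero _)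
  simpa using h

omit [Fintype J] [DecidableEq J] in
open Pool.Agent.Y226.ZR in
/-- the polynomial in the parameters which decides -/
theorem exists_R {n d : ℕ} (A : Coeffs n d (MvPolynomial J ℤ)) (hA : NoCommonZeros A) :
    ∃ R : MvPolynomial J ℤ, R ≠ 0 ∧ ∀ u : J → ℤ, MvPolynomial.eval u R =
      MvPolynomial.eval (fun a => MvPolynomial.eval u (A a)) (Rr n d) := by
  refine ⟨MvPolynomial.aeval A (Rr n d), ?_, fun u => ?_⟩
  · unfold Rr
    rw [map_mul, map_prod, map_prod]
    refine mul_ne_zero (Finset.prod_ne_zero_iff.2 fun i _ => ?_)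
      (Finset.prod_ne_zero_iff.2 fun q hq => ?_)
    · have h1 := rs1_map (MvPolynomial.aeval A : MvPolynomial (Idx n d) ℤ →ₐ[ℤ] MvPolynomial J ℤ).toRingHom
        (MvPolynomial.X : Idx n d → MvPolynomial (Idx n d) ℤ) i
      simp only [AlgHom.toRingHom_eq_coe, RingHom.coe_coe, MvPolynomial.aeval_X] at h1
      rw [h1]
      exact hA.1 i
    · have h1 := rs2_map (MvPolynomial.aeval A : MvPolynomial (Idx n d) ℤ →ₐ[ℤ] MvPolynomial J ℤ).toRingHom
        (MvPolynomial.X : Idx n d → MvPolynomial (Idx n d) ℤ) q.1 q.2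
      simp only [AlgHom.toRingHom_eq_coe, RingHom.coe_coe, MvPolynomial.aeval_X] at h1
      rw [h1]
      exact hA.2 q.1 q.2 (Finset.mem_filter.1 hq).2
  · rw [MvPolynomial.map_aeval]
    have e : (MvPolynomial.eval u).comp (algebraMap ℤ (MvPolynomial J ℤ)) = RingHom.id ℤ :=
      Subsingleton.elim _ _
    rw [e]
    rfl

omit [Fintype J] [DecidableEq J] in
/-- primes which divide `m` and not `R (u)` decide -/
theorem decide {n d : ℕ} (hd : 0 < d) (A : Coeffs n d (MvPolynomial J ℤ)) (hA : NoCommonZeros A)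
    (Γ : Finset ℂ) (hΓ : ∀ γ ∈ Γ, IsAlgebraic ℚ γ) :
    ∃ R : MvPolynomial J ℤ, R ≠ 0 ∧ ∃ (T : ℕ) (G : ℕ → ℕ), ∀ p : ℕ, p.Prime → T < p → ∀ c : Option J → ℤ,
      c none ≠ 0 → (p : ℤ) ∣ c none → ¬ (p : ℤ) ∣ MvPolynomial.eval (fun j => c (some j)) R →
      ZilberPink (Γ : Set ℂ) (G p) (member A c) := by
  classical
  obtain ⟨R, hR, hRe⟩ := exists_R A hA
  have hden : ∀ γ : ℂ, ∃ m : ℕ, γ ∈ Γ → 0 < m ∧ IsIntegral ℤ ((m : ℂ) * γ) := by
    intro γ
    by_cases h : γ ∈ Γ
    · obtain ⟨m, hm⟩ := Pool.Agent.Y226.ZR.exists_den (hΓ γ h)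
      exact ⟨m, fun _ => hm⟩
    · exact ⟨0, fun h' => absurd h' h⟩
  choose M hM using hden
  have hpr : ∀ p : ℕ, ∃ G : ℕ, p.Prime → 16 * (d + 1) ^ 4 < p →
      ∀ (m : ℤ) (c : Coeffs n d ℤ), m ≠ 0 → (p : ℤ) ∣ m →
      ¬ (p : ℤ) ∣ MvPolynomial.eval c (Pool.Agent.Y226.ZR.Rr n d) →
      ∀ Γ : Finset ℂ, (∀ γ ∈ Γ, ∃ m : ℕ, ¬ p ∣ m ∧ IsIntegral ℤ ((m : ℂ) * γ)) →
      ZilberPink (Γ : Set ℂ) G (curve m c) := by
    intro p
    by_cases h : p.Prime ∧ 16 * (d + 1) ^ 4 < p
    · obtain ⟨G, hG⟩ := good_of_prime n d hd p h.1 h.2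
      exact ⟨G, fun _ _ => hG⟩
    · exact ⟨0, fun h1 h2 => absurd ⟨h1, h2⟩ h⟩
  choose Gp hGp using hpr
  refine ⟨R, hR, 16 * (d + 1) ^ 4 + ∑ γ ∈ Γ, M γ, Gp, fun p hp hpT c h0 hpm hpR => ?_⟩
  have hpD : 16 * (d + 1) ^ 4 < p := by omega
  have hΓp : ∀ γ ∈ Γ, ∃ m : ℕ, ¬ p ∣ m ∧ IsIntegral ℤ ((m : ℂ) * γ) := by
    intro γ hγ
    obtain ⟨h5, h6⟩ := hM γ hγ
    refine ⟨M γ, fun h7 => ?_, h6⟩
    have h8 := Nat.le_of_dvd h5 h7
    have h9 : M γ ≤ ∑ γ ∈ Γ, M γ := Finset.single_le_sum (fun _ _ => Nat.zero_le _) hγ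
    omega
  rw [hRe] at hpR
  exact hGp p hp hpD _ _ h0 hpm hpR Γ hΓp

end

/-- **Zilber-Pink for families of rational curves in `Y(1)^n` at parameters formed from arbitrary sets.** -/
theorem result (J : Type) [Fintype J] :
    (∀ (n d : ℕ), 0 < d → ∀ A : Coeffs n d (MvPolynomial J ℤ), NoCommonZeros A →
      ∀ Γ : Finset ℂ, (∀ γ ∈ Γ, IsAlgebraic ℚ γ) → ∀ ε : ℝ, 0 < ε → ∃ G : ℕ,
      ∀ (τ : ℕ → Type) (s : ∀ j, Finset (τ j)) (v : ∀ j, τ j → Option J → ℤ), FlatFamilies s v →
        ∀ᶠ j in atTop, ({i : τ j | i ∈ s j ∧ ¬ ZilberPink (Γ : Set ℂ) G (member A (v j i))}.ncard : ℝ) ≤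
          ε * (s j).card) ∧
    (∀ (τ : ℕ → Type) (s : ∀ j, Finset (τ j)) (v : ∀ j, τ j → Option J → ℤ), FlatFamilies s v →
      ∃ E : ∀ j, Finset (τ j), Small s E ∧
        ∀ (n d : ℕ), 0 < d → ∀ A : Coeffs n d (MvPolynomial J ℤ), NoCommonZeros A →
        ∀ Γ : Finset ℂ, (∀ γ ∈ Γ, IsAlgebraic ℚ γ) →
          Outside s E v fun c => ∃ G : ℕ, ZilberPink (Γ : Set ℂ) G (member A c)) ∧
    Examples (Option J) := by
  classical
  refine ⟨fun n d hd A hA Γ hΓ ε hε => ?_, fun τ s v hs => ?_, examples _⟩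
  · obtain ⟨R, hR, T, G, h⟩ := decide hd A hA Γ hΓ
    obtain ⟨P, hP, hB⟩ := Pool.Agent.N265.ORB.bad_small hR T 1 one_pos (ε / 3) (by positivity)
    have hpos : 0 < ∏ p ∈ P, p := Finset.prod_pos fun p hp => (hP p hp).1.pos
    have hposR : (0 : ℝ) < ((∏ p ∈ P, p : ℕ) : ℝ) := by exact_mod_cast hpos
    refine ⟨∑ p ∈ P, G p, fun τ s v hs => ?_⟩
    have hd : Pool.Agent.N666.TM.dens ((Pool.Agent.Y722.HS.red (∏ p ∈ P, p)) ''
        Pool.Agent.N265.ORB.Bad R P) ≤ ε / 3 := by
      unfold Pool.Agent.N666.TM.dens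
      rw [div_le_iff₀ (by positivity)]
      exact hB
    filter_upwards [flat_freq hs (∏ p ∈ P, p) hpos
      ((Pool.Agent.Y722.HS.red (∏ p ∈ P, p)) '' Pool.Agent.N265.ORB.Bad R P) (ε / 3) (by positivity),
      flat_rare hs (zero_null (J := J)) (ε / 3) (by positivity)] with j hj hj2
    have h1 : {i : τ j | i ∈ s j ∧ ¬ ZilberPink (Γ : Set ℂ) (∑ p ∈ P, G p) (member A (v j i))} ⊆
        {i : τ j | i ∈ s j ∧ Pool.Agent.Y722.HS.red (∏ p ∈ P, p) (v j i) ∈
          (Pool.Agent.Y722.HS.red (∏ p ∈ P, p)) '' Pool.Agent.N265.ORB.Bad R P} ∪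
        {i : τ j | i ∈ s j ∧ v j i ∈ {c : Option J → ℤ | c none = 0}} := by
      rintro i ⟨hi, hb⟩
      by_cases h0 : v j i none = 0
      · exact Or.inr ⟨hi, h0⟩
      · refine Or.inl ⟨hi, ⟨v j i, ?_, rfl⟩⟩
        intro p hp hmem
        obtain ⟨g1, g2⟩ := (mem_OmR R p (v j i)).1 hmem
        apply hb
        exact zilberPink_mono (Finset.single_le_sum (f := G) (fun _ _ => Nat.zero_le _) hp)
          (h p (hP p hp).1 (hP p hp).2.1 _ h0 g1 g2)
    have h2 : (({i : τ j | i ∈ s j ∧ ¬ ZilberPink (Γ : Set ℂ) (∑ p ∈ P, G p) (member A (v j i))}.ncard : ℕ) : ℝ) ≤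
        ({i : τ j | i ∈ s j ∧ Pool.Agent.Y722.HS.red (∏ p ∈ P, p) (v j i) ∈
          (Pool.Agent.Y722.HS.red (∏ p ∈ P, p)) '' Pool.Agent.N265.ORB.Bad R P}.ncard : ℕ) +
        ({i : τ j | i ∈ s j ∧ v j i ∈ {c : Option J → ℤ | c none = 0}}.ncard : ℕ) := by
      exact_mod_cast (Set.ncard_le_ncard h1 (((s j).finite_toSet.subset fun i hi => hi.1).union
        ((s j).finite_toSet.subset fun i hi => hi.1))).trans (Set.ncard_union_le _ _)
    refine h2.trans ?_
    have h3 : (0 : ℝ) ≤ (s j).card := Nat.cast_nonneg _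
    have h4 := mul_le_mul_of_nonneg_right hd h3
    rw [add_mul] at hj
    have h5 := add_le_add hj hj2
    refine h5.trans ?_
    linarith
  · have : Countable (MvPolynomial J ℤ) := by
      rw [← Cardinal.mk_le_aleph0_iff]
      refine MvPolynomial.cardinalMk_le_max.trans ?_
      simp
    obtain ⟨E, hE, h⟩ := flat_diag hs
      (fun x : {R : MvPolynomial J ℤ // R ≠ 0} × ℕ => BadT x.1.1 x.2 ∪ {c : Option J → ℤ | c none = 0})
      (fun x => (clo (Option J)).2.1 _ _ (badT_null x.1.2 x.2) zero_null)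
    refine ⟨E, hE, fun n d hd A hA Γ hΓ => ?_⟩
    obtain ⟨R, hR, T, G, hG⟩ := decide hd A hA Γ hΓ
    filter_upwards [h (⟨R, hR⟩, T)] with j hj i hi hi2
    have h1 := hj i hi hi2
    rw [Set.mem_union, not_or] at h1
    obtain ⟨p, hp, hpT, g1, g2⟩ := not_not.mp h1.1
    exact ⟨G p, hG p hp hpT _ h1.2 g1 g2⟩

end Pool.Agent.Results.MP_130685_nt.ArbitrarySets
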