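import Pool.Agent.U854.CQ.Law
import Pool.Agent.U854.CL.Line
import Pool.Agent.U854.SA.Res

/-!
# MP_130685_nt: Zilber-Pink for subvarieties of `Y(1)^n` near to the cusp `(∞, …, ∞)`, from one place

`Y(1)^n` is identified with `ℂ^n` by the elliptic modular function `jj = j = E₄³ / Δ`. A special
subvariety of dimension `r` is given by a `SpecialVariety n r`: the constant coordinates are CM
points, the coordinates of class `l` are `j (g_i z_l)` with `z_1, …, z_r` free in the upper half plane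
and integral matrices `g_i` of positive determinant.

**The local law at the cusp** (part 1 of `result`). Let `V` be a valuation ring of `ℂ`, let `x` and `x'`
be isogenous and `|x| > 1`. Then `|x'| > 1`, and

  `x'^d = ζ x^a (1 + ε)`, `|ε| ≤ max (1/|x|) (1/|x'|)`,

with coprime `a, d ≥ 1` and a root of unity `ζ`. (By Tate's theory the parameters `q`, `q'` of `x`, `x'`
satisfy `q'^d = ζ⁻¹ q^a`; here `V` need not be complete or of rank one.)

**The setting.** Let `K` be a number field, `σ : K → ℂ`, `v` a prime of `K` above the prime number `p`,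
and let `B ⊆ (P¹)^s` be a variety of any dimension given by multihomogeneous forms `H_t` over `𝓞 K`; let
`N_i`, `M_i` (`i ≤ n`) be forms over `𝓞 K` of the same multidegrees and `y_i = N_i / M_i`. The set
`X ⊆ Y(1)^n` consists of the points `(ω_i ϖ^(-e_i) (1 + ν y_i(z)))_i` with `z ∈ B(ℂ)`, where `ϖ, ν ∈ K`,
`e_i ≥ 1`, the `ω_i` are roots of unity, and `|ϖ^(e_i)| < |ν|`, `|ν|^(p-1) < |p|`.

At a point `(η_i : θ_i)_i` of the reduction modulo `v` of the closure of the graph of `(y_i)_i` the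
coordinates `i`, `j` are *linked* if `e_i y_j = e_j y_i` after division of `e_i`, `e_j` by their greatest
common divisor. The reduction is in *linear position* (`LinearPosition`) if at each of its points over
extension fields of `𝓞 K / v` there is a set `S` of coordinates different from `∞`, pairwise not linked,
such that the number of algebraically independent `y_i` is at most `m + |S| - n`.

**Theorem** (`result`).
2. If the reduction is in linear position at *one* place then `X` has no atypical intersection with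
   special subvarieties: for each special `Z` of dimension `r` the points of `X ∩ Z` have transcendence
   degree at most `r + m - n`, and every irreducible closed subset of `X ∩ Z` has dimension at most
   `r + m - n`.
3. In particular this holds with `m = 1` for the rational curves `(ω_i ϖ^(-e_i) (1 + ν N_i(t) / M_i(t)))_i`
   with binary forms `N_i`, `M_i` of the same degree, if at every point of the projective line over an
   extension of `𝓞 K / v` all the coordinates with at most one exception are different from `∞` and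
   pairwise not linked, and without exception if the point is transcendental over `𝓞 K / v`.

The starting results for points near to the cusp (`LocalCriterion`, `CuspidalReduction`) compare only
absolute values, and need `n (n - 1) / 2 + 1` places with independent exponents: at one place two
coordinates near to the cusp satisfy `|x_i|^(e_j) = |x_j|^(e_i)` and could always be isogenous. Here the
terms of first order are compared, and one place suffices.

Proof of the law: the modular equation of level `N` is `∏_k (Y - j(ξ_k s^(a_k²))) = 0` for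
`X = j(s^N)`. All the power series have algebraic integers as coefficients, so truncated series satisfy
the identity up to a multiple of `s^L` (`Pool.Agent.U854.CQ.data`; the expansions of the coefficients
are those of the starting library `H294ZP`, `W282.ZP.LV`). For `x` with `|x| > 1` there is a `q` with
`x q = 1 + c_1 q + … + c_(L-1) q^(L-1)`, and if `Ψ_N(x, x') = 0` and `L` is large then `x'` is near to one
of the numbers given by `q' = ξ_k s^(a_k²)`, `s^N = q` (`S_PAIR`, proved by helper780).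
-/

set_option autoImplicit false

namespace Pool.Agent.Results.MP_130685_nt.NearTheCusp

open UpperHalfPlane H294ZP NumberField IsDedekindDomain

/-- A special subvariety of dimension `r` of `Y(1)^n`: a map `cls` from the coordinates onto `r`
classes (`none` for the constant coordinates), an integral matrix of positive determinant for each
coordinate, and a CM point for each coordinate. -/
structure SpecialVariety (n r : ℕ) where
  cls : Fin n → Option (Fin r)
  surj : ∀ l : Fin r, ∃ i, cls i = some l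
  mat : Fin n → Matrix (Fin 2) (Fin 2) ℤ
  det_pos : ∀ i, 0 < (mat i).det
  cm : Fin n → ℍ
  isCM : ∀ i, IsCM (cm i)

/-- The points of a special subvariety: the constant coordinates are the singular moduli
`j (cm i)`, the other coordinates are `j (g_i z_l)`, where `l` is the class of `i`, `g_i = mat i` and
`z_1, …, z_r` are free parameters in the upper half plane. -/
def SpecialVariety.locus {n r : ℕ} (Z : SpecialVariety n r) : Set (Fin n → ℂ) :=
  {x | ∃ z : Fin r → ℍ, ∀ i, (Z.cls i = none → x i = jj (Z.cm i)) ∧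
    ∀ l, Z.cls i = some l → ∃ w : ℍ,
      (w : ℂ) * (Z.mat i 1 0 * z l + Z.mat i 1 1) = Z.mat i 0 0 * z l + Z.mat i 0 1 ∧ x i = jj w}

/-- `x` and `x'` are the `j`-invariants of isogenous elliptic curves. -/
def Isogenous (x x' : ℂ) : Prop :=
  ∃ (g : Matrix (Fin 2) (Fin 2) ℤ) (τ τ' : ℍ), 0 < g.det ∧
    (τ' : ℂ) * (g 1 0 * τ + g 1 1) = g 0 0 * τ + g 0 1 ∧ jj τ = x ∧ jj τ' = x'

/-- A form with coefficients in `R` which is homogeneous of degree `deg i` in `(ξ i, ζ i)` for each
`i`: the coefficients of the monomials `∏ ξ_i ^ (e_i) ζ_i ^ (deg i - e_i)`. -/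
structure MultiForm (R : Type) (s : ℕ) where
  deg : Fin s → ℕ
  coeff : ((i : Fin s) → Fin (deg i + 1)) → R

/-- The value of the form at a point over `k`, for a ring homomorphism `R → k`. -/
def MultiForm.eval {R k : Type} [CommRing R] [CommRing k] {s : ℕ} (F : MultiForm R s) (π : R →+* k)
    (ξ ζ : Fin s → k) : k :=
  ∑ e, π (F.coeff e) * ∏ i, ξ i ^ (e i : ℕ) * ζ i ^ (F.deg i - e i)

/-- reduction modulo an ideal, followed by the inclusion into an extension -/
def reduction {R : Type} [CommRing R] (v : Ideal R) (k : Type) [Field k] [Algebra (R ⧸ v) k] :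
    R →+* k :=
  (algebraMap (R ⧸ v) k).comp (Ideal.Quotient.mk v)

/-- A place `v` of a number field `K` embedded into `ℂ`, elements `ϖ`, `ν` of `K`, and for each
coordinate an exponent `e_i ≥ 1` and a root of unity `ω_i`, with `|ϖ^(e_i)| < |ν|`,
`|ν|^(p-1) < |p|`. -/
structure LocalData (n : ℕ) where
  K : Type
  [field : Field K]
  [numberField : NumberField K]
  σ : K →+* ℂ
  v : HeightOneSpectrum (𝓞 K)
  p : ℕ
  prime : p.Prime
  mem : (p : 𝓞 K) ∈ v.asIdeal
  ϖ : K
  ν : K
  e : Fin n → ℕ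
  ω : Fin n → K
  ϖ_ne : ϖ ≠ 0
  ϖ_lt : v.valuation K ϖ < 1
  ν_ne : ν ≠ 0
  ν_lt : v.valuation K ν ^ (p - 1) < v.valuation K p
  e_pos : ∀ i, 0 < e i
  e_lt : ∀ i, v.valuation K (ϖ ^ e i) < v.valuation K ν
  root : ∀ i, ∃ r : ℕ, 0 < r ∧ ω i ^ r = 1

attribute [instance] LocalData.field LocalData.numberField

/-- The coordinates `i` and `j` are linked at the point `(η_i : θ_i)_i` of the reduction:
`(e_i / g) y_j = (e_j / g) y_i`, where `g` is the greatest common divisor of `e_i` and `e_j` and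
`y_i = η_i / θ_i`. -/
def LocalData.Linked {n : ℕ} (D : LocalData n) {k : Type} [Field k] (η θ : Fin n → k)
    (i j : Fin n) : Prop :=
  ((D.e i / Nat.gcd (D.e i) (D.e j) : ℕ) : k) * (η j / θ j) =
    ((D.e j / Nat.gcd (D.e i) (D.e j) : ℕ) : k) * (η i / θ i)

/-- The coordinates in the set `S` are different from `∞` and pairwise not linked. -/
def LocalData.Free {n : ℕ} (D : LocalData n) {k : Type} [Field k] (η θ : Fin n → k)
    (S : Finset (Fin n)) : Prop :=
  (∀ i ∈ S, θ i ≠ 0) ∧ ∀ i ∈ S, ∀ j ∈ S, i ≠ j → ¬ D.Linked η θ i j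

/-- The equations of a variety `B ⊆ (P¹)^s` (forms `H_t`), and forms `N_i`, `M_i` of the same
multidegrees. -/
structure Family {n : ℕ} (D : LocalData n) where
  s : ℕ
  T : Type
  H : T → MultiForm (𝓞 D.K) s
  N : Fin n → MultiForm (𝓞 D.K) s
  M : Fin n → MultiForm (𝓞 D.K) s
  deg_eq : ∀ i, (N i).deg = (M i).deg

/-- The point `((ξ_j : ζ_j)_j, (η_i : θ_i)_i)` over `k` is on the variety `B` and satisfies
`η_i M_i = θ_i N_i`. -/
def Family.OnGraph {n : ℕ} {D : LocalData n} (F : Family D) {k : Type} [Field k]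
    (π : 𝓞 D.K →+* k) (ξ ζ : Fin F.s → k) (η θ : Fin n → k) : Prop :=
  (∀ j, ξ j ≠ 0 ∨ ζ j ≠ 0) ∧ (∀ i, η i ≠ 0 ∨ θ i ≠ 0) ∧ (∀ t, (F.H t).eval π ξ ζ = 0) ∧
    ∀ i, η i * (F.M i).eval π ξ ζ = θ i * (F.N i).eval π ξ ζ

/-- The reduction is in linear position: at each of its points over an extension `k` of `𝓞 K / v`, for
each set `W` of algebraically independent coordinates `y_i = η_i / θ_i` there is a set `S` of
coordinates different from `∞`, pairwise not linked, with `n + |W| ≤ m + |S|`. -/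
def Family.LinearPosition {n : ℕ} {D : LocalData n} (F : Family D) (m : ℕ) : Prop :=
  ∀ (k : Type) [Field k] [Algebra (𝓞 D.K ⧸ D.v.asIdeal) k] (ξ ζ : Fin F.s → k) (η θ : Fin n → k),
    F.OnGraph (reduction D.v.asIdeal k) ξ ζ η θ →
    ∀ W : Finset (Fin n),
      AlgebraicIndependent (𝓞 D.K ⧸ D.v.asIdeal) (fun i : W => η i / θ i) →
      ∃ S : Finset (Fin n), D.Free η θ S ∧ n + W.card ≤ m + S.card

/-- All the points `(ω_i ϖ^(-e_i) (1 + ν N_i(z) / M_i(z)))_i` with `z ∈ B(ℂ)`, `M_i(z) ≠ 0`. -/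
def Family.image {n : ℕ} {D : LocalData n} (F : Family D) : Set (Fin n → ℂ) :=
  {x | ∃ ξ ζ : Fin F.s → ℂ, (∀ j, ξ j ≠ 0 ∨ ζ j ≠ 0) ∧
    (∀ t, (F.H t).eval (D.σ.comp (algebraMap (𝓞 D.K) D.K)) ξ ζ = 0) ∧
    ∀ i, (F.M i).eval (D.σ.comp (algebraMap (𝓞 D.K) D.K)) ξ ζ ≠ 0 ∧
      x i = D.σ (D.ω i) / D.σ D.ϖ ^ D.e i * (1 + D.σ D.ν *
        ((F.N i).eval (D.σ.comp (algebraMap (𝓞 D.K) D.K)) ξ ζ /
          (F.M i).eval (D.σ.comp (algebraMap (𝓞 D.K) D.K)) ξ ζ))}

/-- `X` has no atypical intersection: for each special subvariety `Z` of dimension `r`, the points of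
`X ∩ Z` have transcendence degree at most `m + r - n`, and each irreducible closed subset of `X ∩ Z`
has dimension at most `m + r - n`. -/
def NoAtypical {n : ℕ} (X : Set (Fin n → ℂ)) (m : ℕ) : Prop :=
  ∀ (r : ℕ) (Z : SpecialVariety n r),
    (∀ x ∈ X ∩ Z.locus, ∀ W : Finset (Fin n), AlgebraicIndependent ℚ (fun i : W => x i) →
      n + W.card ≤ m + r) ∧
    ∀ A ⊆ X ∩ Z.locus, Pool.Agent.W282.ZP.zcl A ⊆ A → (Pool.Agent.W282.ZP.idealOf A).IsPrime →
      (n : Cardinal) + Pool.Agent.W282.ZP.zdim A ≤ (m : Cardinal) + (r : Cardinal)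

/-- The rational curve is in linear position: at each point `(ξ : ζ)` of the projective line over an
extension `k` of `𝓞 K / v` the coordinates `N_i / M_i` with at most one exception are different from
`∞` and pairwise not linked, and without exception if `ξ / ζ` is transcendental. -/
def LinePosition {n : ℕ} (D : LocalData n) (N M : Fin n → MultiForm (𝓞 D.K) 1) : Prop :=
  ∀ (k : Type) [Field k] [Algebra (𝓞 D.K ⧸ D.v.asIdeal) k] (ξ ζ : Fin 1 → k),
    (ξ 0 ≠ 0 ∨ ζ 0 ≠ 0) →
    ∃ S : Finset (Fin n), n ≤ 1 + S.card ∧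
      (Transcendental (𝓞 D.K ⧸ D.v.asIdeal) (ξ 0 / ζ 0) → S = Finset.univ) ∧
      D.Free (fun i => (N i).eval (reduction D.v.asIdeal k) ξ ζ)
        (fun i => (M i).eval (reduction D.v.asIdeal k) ξ ζ) S ∧
      ∀ i, (N i).eval (reduction D.v.asIdeal k) ξ ζ ≠ 0 ∨
        (M i).eval (reduction D.v.asIdeal k) ξ ζ ≠ 0

/-- The rational curve `(ω_i ϖ^(-e_i) (1 + ν N_i(t) / M_i(t)))_i`, `t` a point of the projective
line. -/
def rational {n : ℕ} (D : LocalData n) (N M : Fin n → MultiForm (𝓞 D.K) 1)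
    (h : ∀ i, (N i).deg = (M i).deg) : Family D where
  s := 1
  T := Empty
  H := fun t => t.elim
  N := N
  M := M
  deg_eq := h

/-- the form as in the helper files -/
def toForm {R : Type} {s : ℕ} (F : MultiForm R s) :
    Pool.Agent.U854.SA.Form R (Fin s) := ⟨F.deg, F.coeff⟩

theorem eval_scale {R k : Type} [CommRing R] [CommRing k] {s : ℕ}
    (F : MultiForm R s) (π : R →+* k) (l a b : Fin s → k) :
    F.eval π (fun i => l i * a i) (fun i => l i * b i) = F.eval π a b * ∏ i, l i ^ F.deg i :=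
  Pool.Agent.U854.SA.Form.eval_scale (toForm F) π l a b

theorem map_eval {R k k' : Type} [CommRing R] [CommRing k] [CommRing k'] {s : ℕ}
    (F : MultiForm R s) (π : R →+* k) (f : k →+* k') (ξ ζ : Fin s → k) :
    f (F.eval π ξ ζ) = F.eval (f.comp π) (fun i => f (ξ i)) (fun i => f (ζ i)) :=
  Pool.Agent.U854.SA.Form.map_eval (toForm F) π f ξ ζ

theorem main_pt {n m : ℕ} {D : LocalData n} (F : Family D) (hF : F.LinearPosition m)
    {r : ℕ} (Z : SpecialVariety n r) {x : Fin n → ℂ} (hxX : x ∈ F.image) (hxZ : x ∈ Z.locus)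
    (W : Finset (Fin n)) (hW : AlgebraicIndependent ℚ (fun i : W => x i)) :
    n + W.card ≤ m + r := by
  classical
  obtain ⟨ξ, ζ, hξζ, hH, hx⟩ := hxX
  set ι := D.σ.comp (algebraMap (𝓞 D.K) D.K) with hι
  have hω0 : ∀ i, D.ω i ≠ 0 := by
    intro i h
    obtain ⟨r', hr', h'⟩ := D.root i
    rw [h, zero_pow hr'.ne'] at h'
    exact zero_ne_one h'
  have hϖC : D.σ D.ϖ ≠ 0 := (map_ne_zero D.σ).2 D.ϖ_ne
  have hc0 : ∀ i, D.ω i / D.ϖ ^ D.e i ≠ 0 := fun i => div_ne_zero (hω0 i) (pow_ne_zero _ D.ϖ_ne)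
  let y : Fin n → ℂ := fun i => (F.N i).eval ι ξ ζ / (F.M i).eval ι ξ ζ
  have hxy : ∀ i, x i = D.σ (D.ω i) / D.σ D.ϖ ^ D.e i * (1 + D.σ D.ν * y i) := fun i => (hx i).2
  -- the coordinates `y`
  have hWy : AlgebraicIndependent ℚ (fun i : W => y i) := by
    let _ : Algebra D.K ℂ := D.σ.toAlgebra
    have hKx : AlgebraicIndependent D.K (fun i : W => x i) := hW.extendScalars D.K
    have hKy : AlgebraicIndependent D.K (fun i : W => y i) :=
      Pool.Agent.N135.ZO.indep_affine (fun i : W => D.ω i / D.ϖ ^ D.e i)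
        (fun i : W => D.ω i / D.ϖ ^ D.e i * D.ν) (fun i => mul_ne_zero (hc0 i) D.ν_ne)
        (fun i => by
          have e1 : (algebraMap D.K ℂ) = D.σ := rfl
          rw [hxy i, e1, map_mul, map_div₀, map_pow]
          ring) hKx
    exact hKy.restrictScalars (algebraMap ℚ D.K).injective
  let a : Fin F.s ⊕ Fin n → ℂ := Sum.elim ξ (fun i => (F.N i).eval ι ξ ζ)
  let b : Fin F.s ⊕ Fin n → ℂ := Sum.elim ζ (fun i => (F.M i).eval ι ξ ζ)
  have hab : ∀ i, a i ≠ 0 ∨ b i ≠ 0 := by
    rintro (j | i)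
    · exact hξζ j
    · exact Or.inr (hx i).1
  let W₁ : Finset (Fin F.s ⊕ Fin n) := W.map ⟨Sum.inr, Sum.inr_injective⟩
  have hW₁ : AlgebraicIndependent ℚ (fun i : W₁ => a i / b i) := by
    have hex : ∀ i : W₁, ∃ j : W, (Sum.inr (j : Fin n) : Fin F.s ⊕ Fin n) = i := by
      rintro ⟨i, hi⟩
      obtain ⟨j, hj, hij⟩ := Finset.mem_map.1 hi
      exact ⟨⟨j, hj⟩, hij⟩
    choose f hf using hex
    have hfi : Function.Injective f := by
      intro i i' h
      apply Subtype.ext
      rw [← hf i, ← hf i', h]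
    have h1 := hWy.comp f hfi
    have e : (fun i : W₁ => a i / b i) = (fun i : W => y i) ∘ f := by
      funext i
      rw [← hf i]
      rfl
    rw [e]
    exact h1
  obtain ⟨V, hA1, hA2, -, π, k', hk, hkA, res, l, ξ', ζ', hπ, hresπ, hres, hl, hξ', hζ', hne,
    hind⟩ := Pool.Agent.U854.SA.place_res D.σ D.v D.prime D.mem hab W₁ hW₁
  have hpV : V.valuation (D.p : ℂ) < 1 := by
    have := (hA2 (D.p : 𝓞 D.K)).2 D.mem
    simpa using this
  have hpK : (D.p : D.K) ≠ 0 := by exact_mod_cast D.prime.ne_zero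
  have hpC : (D.p : ℂ) ≠ 0 := by exact_mod_cast D.prime.ne_zero
  -- the values of the forms at the normalized coordinates
  have hVal : ∀ (G : MultiForm (𝓞 D.K) F.s),
      ((G.eval π (fun j => ξ' (Sum.inl j)) (fun j => ζ' (Sum.inl j)) : V) : ℂ) =
        G.eval ι ξ ζ * ∏ j, l (Sum.inl j) ^ G.deg j := by
    intro G
    have h3 := map_eval G π V.subtype (fun j => ξ' (Sum.inl j)) (fun j => ζ' (Sum.inl j))
    have h5 : (fun j => V.subtype (ξ' (Sum.inl j))) = fun j => l (Sum.inl j) * ξ j :=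
      funext fun j => hξ' (Sum.inl j)
    have h6 : (fun j => V.subtype (ζ' (Sum.inl j))) = fun j => l (Sum.inl j) * ζ j :=
      funext fun j => hζ' (Sum.inl j)
    rw [hπ, h5, h6, eval_scale] at h3
    exact h3
  have hRes : ∀ (G : MultiForm (𝓞 D.K) F.s),
      res (G.eval π (fun j => ξ' (Sum.inl j)) (fun j => ζ' (Sum.inl j))) =
        G.eval (reduction D.v.asIdeal k') (fun j => res (ξ' (Sum.inl j)))
          (fun j => res (ζ' (Sum.inl j))) := by
    intro G
    rw [reduction, hresπ]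
    exact map_eval G π res _ _
  have hgraph : F.OnGraph (reduction D.v.asIdeal k') (fun j => res (ξ' (Sum.inl j)))
      (fun j => res (ζ' (Sum.inl j))) (fun i => res (ξ' (Sum.inr i)))
      (fun i => res (ζ' (Sum.inr i))) := by
    refine ⟨fun j => hne (Sum.inl j), fun i => hne (Sum.inr i), fun t => ?_, fun i => ?_⟩
    · rw [← hRes]
      have h2 : (F.H t).eval π (fun j => ξ' (Sum.inl j)) (fun j => ζ' (Sum.inl j)) = 0 := by
        apply Subtype.ext
        rw [hVal, hH t, zero_mul]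
        rfl
      rw [h2, map_zero]
    · rw [← hRes, ← hRes, ← map_mul, ← map_mul]
      congr 1
      apply Subtype.ext
      push_cast
      rw [hVal, hVal, F.deg_eq i]
      have e1 : (ξ' (Sum.inr i) : ℂ) = l (Sum.inr i) * (F.N i).eval ι ξ ζ := hξ' (Sum.inr i)
      have e2 : (ζ' (Sum.inr i) : ℂ) = l (Sum.inr i) * (F.M i).eval ι ξ ζ := hζ' (Sum.inr i)
      rw [e1, e2]
      ring
  have hind' : AlgebraicIndependent (𝓞 D.K ⧸ D.v.asIdeal)
      (fun i : W => res (ξ' (Sum.inr (i : Fin n))) / res (ζ' (Sum.inr (i : Fin n)))) :=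
    hind.comp (fun i : W => (⟨Sum.inr (i : Fin n), Finset.mem_map.2 ⟨i, i.2, rfl⟩⟩ : W₁))
      (fun i i' h => Subtype.ext (Sum.inr_injective (congrArg Subtype.val h)))
  obtain ⟨S, ⟨hS1, hS2⟩, hcount⟩ := hF k' _ _ _ _ hgraph W hind'
  have hunit : ∀ z : V, res z ≠ 0 → V.valuation (z : ℂ) = 1 := by
    intro z hz
    refine le_antisymm ((V.valuation_le_one_iff _).2 z.2) (not_lt.1 fun h => ?_)
    exact hz ((hres z).2 h)
  have hyq : ∀ i, y i = (ξ' (Sum.inr i) : ℂ) / (ζ' (Sum.inr i) : ℂ) := by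
    intro i
    have e1 : (ξ' (Sum.inr i) : ℂ) = l (Sum.inr i) * (F.N i).eval ι ξ ζ := hξ' (Sum.inr i)
    have e2 : (ζ' (Sum.inr i) : ℂ) = l (Sum.inr i) * (F.M i).eval ι ξ ζ := hζ' (Sum.inr i)
    rw [e1, e2, mul_div_mul_left _ _ (hl _)]
  have hy1 : ∀ i ∈ S, V.valuation (y i) ≤ 1 := by
    intro i hi
    rw [hyq, map_div₀, hunit _ (hS1 i hi), div_one]
    exact (V.valuation_le_one_iff _).2 (ξ' (Sum.inr i)).2
  have hϖV : V.valuation (D.σ D.ϖ) < 1 := by
    have h3 := Pool.Agent.N135.ZO.val_pow_lt hA1 hA2 (x := D.ϖ) (y := (1 : D.K)) one_ne_zero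
      (by rw [map_one]; exact D.ϖ_lt)
    rwa [map_one, map_one] at h3
  have hνC : D.σ D.ν ≠ 0 := (map_ne_zero D.σ).2 D.ν_ne
  have hνV : V.valuation (D.σ D.ν) ^ (D.p - 1) < V.valuation (D.p : ℂ) := by
    have h3 := Pool.Agent.N135.ZO.val_pow_lt hA1 hA2 (x := D.ν ^ (D.p - 1))
      (y := (D.p : D.K)) hpK (by rw [map_pow]; exact D.ν_lt)
    rwa [map_pow, map_pow, map_natCast] at h3
  have heV : ∀ i, V.valuation (D.σ D.ϖ) ^ D.e i < V.valuation (D.σ D.ν) := by
    intro i
    have h3 := Pool.Agent.N135.ZO.val_pow_lt hA1 hA2 (x := D.ϖ ^ D.e i) (y := D.ν) D.ν_ne (D.e_lt i)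
    rwa [map_pow, map_pow] at h3
  have hroot : ∀ i, ∃ r : ℕ, 0 < r ∧ D.σ (D.ω i) ^ r = 1 := by
    intro i
    obtain ⟨r', hr', h'⟩ := D.root i
    exact ⟨r', hr', by rw [← map_pow, h', map_one]⟩
  have hxe : ∀ i, x i * D.σ D.ϖ ^ D.e i = D.σ (D.ω i) * (1 + D.σ D.ν * y i) := by
    intro i
    rw [hxy i]
    field_simp
  obtain ⟨z, hz⟩ := hxZ
  have hp1 : D.p - 1 ≠ 0 := by have := D.prime.two_le; omega
  have hν1 : V.valuation (D.σ D.ν) < 1 := by
    by_contra h
    have h1 : 1 ≤ V.valuation (D.σ D.ν) ^ (D.p - 1) := one_le_pow₀ (not_lt.1 h)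
    exact absurd (h1.trans_lt (hνV.trans hpV)) (lt_irrefl _)
  have hxlarge : ∀ i ∈ S, 1 < V.valuation (x i) := by
    intro i hi
    obtain ⟨r', hr', h'⟩ := hroot i
    have e1 : V.valuation (1 + D.σ D.ν * y i) = 1 := by
      refine Pool.Agent.U854.OP.val_one_add V ?_
      rw [map_mul]
      exact (mul_le_of_le_one_right' (hy1 i hi)).trans_lt hν1
    have h3 := congrArg V.valuation (hxe i)
    rw [map_mul, map_pow, map_mul, e1, mul_one,
      Pool.Agent.W282.ZP.val_root_of_unity V hr' h'] at h3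
    by_contra hcon
    have h4 : V.valuation (D.σ D.ϖ) ^ D.e i < 1 := pow_lt_one₀ zero_le hϖV (D.e_pos i).ne'
    have h5 : V.valuation (x i) * V.valuation (D.σ D.ϖ) ^ D.e i < 1 :=
      (mul_le_of_le_one_left' (not_lt.1 hcon)).trans_lt h4
    rw [h3] at h5
    exact lt_irrefl _ h5
  have hnone : ∀ i ∈ S, Z.cls i ≠ none := by
    intro i hi hn
    have h3 := hxlarge i hi
    rw [(hz i).1 hn] at h3
    have h4 : V.valuation (jj (Z.cm i)) ≤ 1 := by
      have h5 := Pool.Agent.W282.ZP.val_le_of_integral (K := ℂ) V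
        (singular_modulus_integral _ (Z.isCM i))
      simpa using h5
    exact absurd h3 (not_lt.2 h4)
  have hcard : S.card ≤ r := by
    refine Pool.Agent.U854.CL.card_le_classes Z.cls S hnone ?_
    intro i hi j hj hij hcls
    apply hS2 i hi j hj hij
    obtain ⟨l', hl'⟩ := Option.ne_none_iff_exists'.1 (hnone i hi)
    obtain ⟨w, hw1, hw2⟩ := (hz i).2 l' hl'
    obtain ⟨w', hw1', hw2'⟩ := (hz j).2 l' (hcls ▸ hl')
    obtain ⟨A, hA, hrel⟩ := Pool.Agent.N135.ZO.rel_of_two (M := Z.mat i) (M' := Z.mat j)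
      (z := z l') (Z.det_pos i) (Z.det_pos j) hw1 hw1'
    have hlaw := Pool.Agent.U854.CQ.near_law D.prime hpV hϖC hϖV hνC hνV (D.e_pos i) (D.e_pos j)
      (heV i) (heV j) (hroot i) (hroot j) (hy1 i hi) (hy1 j hj) (by rw [← hw2]; exact hxe i)
      (by rw [← hw2']; exact hxe j) hA hrel
    set a' := D.e i / Nat.gcd (D.e i) (D.e j) with ha'
    set d' := D.e j / Nat.gcd (D.e i) (D.e j) with hd'
    have hζi : ((ζ' (Sum.inr i) : V) : ℂ) ≠ 0 := by
      rw [← V.valuation.ne_zero_iff, hunit _ (hS1 i hi)]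
      exact one_ne_zero
    have hζj : ((ζ' (Sum.inr j) : V) : ℂ) ≠ 0 := by
      rw [← V.valuation.ne_zero_iff, hunit _ (hS1 j hj)]
      exact one_ne_zero
    have e2 : ((a' * ξ' (Sum.inr j) * ζ' (Sum.inr i) - d' * ξ' (Sum.inr i) * ζ' (Sum.inr j) : V) : ℂ) =
        ((a' : ℂ) * y j - (d' : ℂ) * y i) *
          (((ζ' (Sum.inr i) : V) : ℂ) * ((ζ' (Sum.inr j) : V) : ℂ)) := by
      rw [hyq i, hyq j]
      push_cast
      field_simp
    have h0 : res (a' * ξ' (Sum.inr j) * ζ' (Sum.inr i) - d' * ξ' (Sum.inr i) * ζ' (Sum.inr j)) =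
        0 := by
      rw [hres, e2, map_mul, map_mul, hunit _ (hS1 i hi), hunit _ (hS1 j hj), mul_one, mul_one]
      exact hlaw
    rw [map_sub, map_mul, map_mul, map_mul, map_mul, map_natCast, map_natCast] at h0
    show (a' : k') * (res (ξ' (Sum.inr j)) / res (ζ' (Sum.inr j))) =
      (d' : k') * (res (ξ' (Sum.inr i)) / res (ζ' (Sum.inr i)))
    have g1 := hS1 i hi
    have g2 := hS1 j hj
    rw [← mul_div_assoc, ← mul_div_assoc, div_eq_div_iff g2 g1]
    linear_combination h0
  omega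

theorem main {n m : ℕ} {D : LocalData n} (F : Family D) (hF : F.LinearPosition m)
    (X : Set (Fin n → ℂ)) (hX : X ⊆ F.image) : NoAtypical X m := by
  have hpt : ∀ (r : ℕ) (Z : SpecialVariety n r), ∀ x ∈ X ∩ Z.locus, ∀ W : Finset (Fin n),
      AlgebraicIndependent ℚ (fun i : W => x i) → n + W.card ≤ m + r :=
    fun r Z x hx W hW => main_pt F hF Z (hX hx.1) hx.2 W hW
  intro r Z
  refine ⟨hpt r Z, ?_⟩
  intro A hA hcl hprime
  obtain ⟨x, hxA, W, hW, hdim⟩ := Pool.Agent.W466.ZC.generic_dim ℚ A hprime hcl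
  have h := hpt r Z x (hA hxA) W hW
  calc (n : Cardinal) + Pool.Agent.W282.ZP.zdim A ≤ (n : Cardinal) + (W.card : Cardinal) := by
        gcongr
    _ = ((n + W.card : ℕ) : Cardinal) := by push_cast; rfl
    _ ≤ ((m + r : ℕ) : Cardinal) := by exact_mod_cast h
    _ = (m : Cardinal) + (r : Cardinal) := by push_cast; rfl

theorem eval_mem {R : Type} [CommRing R] {v : Ideal R} {k : Type} [Field k] [Algebra (R ⧸ v) k]
    {s : ℕ} (G : MultiForm R s) (A : Subalgebra (R ⧸ v) k) (u w : Fin s → k)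
    (hu : ∀ i, u i ∈ A) (hw : ∀ i, w i ∈ A) : G.eval (reduction v k) u w ∈ A := by
  unfold MultiForm.eval
  refine A.sum_mem fun e _ => A.mul_mem ?_ (A.prod_mem fun i _ =>
    A.mul_mem (A.pow_mem (hu i) _) (A.pow_mem (hw i) _))
  exact A.algebraMap_mem _

theorem line_linear {n : ℕ} (D : LocalData n) (N M : Fin n → MultiForm (𝓞 D.K) 1)
    (h : ∀ i, (N i).deg = (M i).deg) (hL : LinePosition D N M) :
    (rational D N M h).LinearPosition 1 := by
  classical
  intro k _ _ ξ ζ η θ hgr W hW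
  obtain ⟨h1, h2, -, h4⟩ := hgr
  change Fin 1 → k at ξ ζ
  change ∀ j : Fin 1, ξ j ≠ 0 ∨ ζ j ≠ 0 at h1
  change ∀ i, η i * (M i).eval (reduction D.v.asIdeal k) ξ ζ =
    θ i * (N i).eval (reduction D.v.asIdeal k) ξ ζ at h4
  obtain ⟨S, hc, htr, ⟨hS1, hS2⟩, hNM⟩ := hL k ξ ζ (h1 0)
  have hquot : ∀ i, η i / θ i = (N i).eval (reduction D.v.asIdeal k) ξ ζ /
      (M i).eval (reduction D.v.asIdeal k) ξ ζ := by
    intro i
    by_cases hM : (M i).eval (reduction D.v.asIdeal k) ξ ζ = 0
    · have hN := (hNM i).resolve_right (fun h => h hM)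
      have h5 := h4 i
      rw [hM, mul_zero] at h5
      have hθ := (mul_eq_zero.1 h5.symm).resolve_right hN
      rw [hM, hθ, div_zero, div_zero]
    · have hθ : θ i ≠ 0 := by
        intro hθ
        have h5 := h4 i
        rw [hθ, zero_mul] at h5
        rcases h2 i with h6 | h6
        · exact (mul_ne_zero h6 hM) h5
        · exact h6 hθ
      rw [div_eq_div_iff hθ hM]
      linear_combination h4 i
  have hfree : D.Free η θ S := by
    refine ⟨fun i hi => ?_, fun i hi j hj hij hlk => ?_⟩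
    · have hM := hS1 i hi
      intro hθ
      have h5 := h4 i
      rw [hθ, zero_mul] at h5
      rcases h2 i with h6 | h6
      · exact (mul_ne_zero h6 hM) h5
      · exact h6 hθ
    · refine hS2 i hi j hj hij ?_
      unfold LocalData.Linked at hlk ⊢
      rw [hquot, hquot] at hlk
      exact hlk
  have hprime : D.v.asIdeal.IsPrime := D.v.isPrime
  have hfaith : FaithfulSMul (𝓞 D.K ⧸ D.v.asIdeal) k := by
    rw [faithfulSMul_iff_algebraMap_injective]
    have hmax : D.v.asIdeal.IsMaximal := D.v.isMaximal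
    let _ := Ideal.Quotient.field D.v.asIdeal
    exact (algebraMap (𝓞 D.K ⧸ D.v.asIdeal) k).injective
  have hcard := Pool.Agent.U854.CL.line_card (F := 𝓞 D.K ⧸ D.v.asIdeal) W
    (fun i => η i / θ i) (ξ 0 / ζ 0) (fun i _ => by
      set A := Algebra.adjoin (𝓞 D.K ⧸ D.v.asIdeal) {ξ 0 / ζ 0} with hA
      have htA : ξ 0 / ζ 0 ∈ A := Algebra.subset_adjoin rfl
      by_cases hζ : ζ 0 = 0
      · have hξ : ξ 0 ≠ 0 := (h1 0).resolve_right (fun h => h hζ)
        refine ⟨(N i).eval (reduction D.v.asIdeal k) (fun _ => 1) (fun _ => 0),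
          eval_mem _ A _ _ (fun _ => A.one_mem) (fun _ => A.zero_mem),
          (M i).eval (reduction D.v.asIdeal k) (fun _ => 1) (fun _ => 0),
          eval_mem _ A _ _ (fun _ => A.one_mem) (fun _ => A.zero_mem), ?_⟩
        have e1 : ξ = fun j => (fun _ : Fin 1 => ξ 0) j * (fun _ : Fin 1 => (1 : k)) j := by
          funext j
          rw [Subsingleton.elim j 0, mul_one]
        have e2 : ζ = fun j => (fun _ : Fin 1 => ξ 0) j * (fun _ : Fin 1 => (0 : k)) j := by
          funext j
          rw [Subsingleton.elim j 0, mul_zero, hζ]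
        have hsc : ∀ G : MultiForm (𝓞 D.K) 1, G.eval (reduction D.v.asIdeal k) ξ ζ =
            G.eval (reduction D.v.asIdeal k) (fun _ => 1) (fun _ => 0) *
              ∏ i, (fun _ : Fin 1 => ξ 0) i ^ G.deg i := by
          intro G
          rw [← eval_scale, ← e1, ← e2]
        show η i / θ i = _
        rw [hquot, hsc, hsc, h i]
        exact mul_div_mul_right _ _ (Finset.prod_ne_zero_iff.2 fun j _ => pow_ne_zero _ hξ)
      · refine ⟨(N i).eval (reduction D.v.asIdeal k) (fun _ => ξ 0 / ζ 0) (fun _ => 1),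
          eval_mem _ A _ _ (fun _ => htA) (fun _ => A.one_mem),
          (M i).eval (reduction D.v.asIdeal k) (fun _ => ξ 0 / ζ 0) (fun _ => 1),
          eval_mem _ A _ _ (fun _ => htA) (fun _ => A.one_mem), ?_⟩
        have e1 : ξ = fun j => (fun _ : Fin 1 => ζ 0) j * (fun _ : Fin 1 => ξ 0 / ζ 0) j := by
          funext j
          rw [Subsingleton.elim j 0, mul_div_cancel₀ _ hζ]
        have e2 : ζ = fun j => (fun _ : Fin 1 => ζ 0) j * (fun _ : Fin 1 => (1 : k)) j := by
          funext j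
          rw [Subsingleton.elim j 0, mul_one]
        have hsc : ∀ G : MultiForm (𝓞 D.K) 1, G.eval (reduction D.v.asIdeal k) ξ ζ =
            G.eval (reduction D.v.asIdeal k) (fun _ => ξ 0 / ζ 0) (fun _ => 1) *
              ∏ i, (fun _ : Fin 1 => ζ 0) i ^ G.deg i := by
          intro G
          rw [← eval_scale, ← e1, ← e2]
        show η i / θ i = _
        rw [hquot, hsc, hsc, h i]
        exact mul_div_mul_right _ _ (Finset.prod_ne_zero_iff.2 fun j _ => pow_ne_zero _ hζ)) hW
  refine ⟨S, hfree, ?_⟩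
  by_cases ht : IsAlgebraic (𝓞 D.K ⧸ D.v.asIdeal) (ξ 0 / ζ 0)
  · have := hcard.2 ht
    omega
  · have h5 := htr ht
    have h6 := hcard.1
    rw [h5, Finset.card_univ, Fintype.card_fin]
    omega

/-- **Zilber-Pink for subvarieties of `Y(1)^n` near to the cusp.** -/
theorem result :
    -- the local law
    (∀ (V : ValuationSubring ℂ) (x x' : ℂ), Isogenous x x' → 1 < V.valuation x →
      1 < V.valuation x' ∧ ∃ (a d : ℕ) (ζ : ℂ), 0 < a ∧ 0 < d ∧ a.Coprime d ∧
        (∃ r : ℕ, 0 < r ∧ ζ ^ r = 1) ∧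
        V.valuation (x' ^ d / (ζ * x ^ a) - 1) ≤ max (V.valuation x)⁻¹ (V.valuation x')⁻¹) ∧
    -- the criterion
    (∀ (n m : ℕ) (D : LocalData n) (F : Family D), F.LinearPosition m →
      ∀ X ⊆ F.image, NoAtypical X m) ∧
    -- rational curves
    (∀ (n : ℕ) (D : LocalData n) (N M : Fin n → MultiForm (𝓞 D.K) 1)
      (h : ∀ i, (N i).deg = (M i).deg), LinePosition D N M →
      NoAtypical (rational D N M h).image 1) := by
  refine ⟨?_, fun n m D F hF X hX => main F hF X hX, fun n D N M h hL =>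
    main _ (line_linear D N M h hL) _ subset_rfl⟩
  rintro V x x' ⟨g, w, w', hg, hrel, rfl, rfl⟩ hx
  exact Pool.Agent.U854.CQ.cusp_law V hg hrel hx

end Pool.Agent.Results.MP_130685_nt.NearTheCusp
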