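import Pool.Agent.Results.MP_130685_nt.RandomOrbits
import Pool.Agent.U125.NO.Mult

/-!
# Zilber-Pink in `Y(1)^n` along normal sequences, for arbitrary families of rational curves

`Y(1)^n` is identified with `ℂ^n` by the elliptic modular function. Let `P_i (u; s, t)`, `Q_i (u; s, t)`,
`i = 1, …, n`, be arbitrary forms of degree `d ≥ 1` in `(s, t)` whose coefficients are integral polynomials in
finitely many parameters `u_j`, `j ∈ J`, such that the `n` resultants of `P_i`, `Q_i` and the resultants of
`P_i Q_i`, `P_j Q_j`, `i ≠ j`, are not identically zero. For integers `m` and `u` one has the rational curve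
`V (m, u)` with the parametrization `x_i = P_i (u; s, t) / (m Q_i (u; s, t))`, `(s : t) ∈ ℙ¹` (`member`, as in the
starting result `RandomOrbits`, where the vectors `(m, u)` run through almost every random orbit of a thin group).

**Theorem.** Let `c_0, c_1, …` be a normal orbit of vectors `(m, u)` (`NormalOrbit`): the orbit of an integral vector
under a finite family of integral affine maps along ANY normal sequence of indices, the family being wide (for
all `q` prime to some `q₀` the maps are bijective modulo `q`, and the vector can be moved to at least the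
proportion `κ > 0`, not depending on `q`, of all vectors modulo `q`). For every `ε > 0` there is a number `G` such
that for all large `N` and for all but `ε N` of the times `t < N`

* `V (c_t)` has at most `G` points on special subvarieties of codimension at least two;
* all these points are on the special subvarieties defined by an isogeny of degree at most `G` between two
  of the coordinates: one finite set of proper special subvarieties of `Y(1)^n` covers the atypical
  intersections of all these curves;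
* `V (c_t)` is not contained in a proper special subvariety.

The constants of the special subvarieties are singular moduli, or integral over the ring generated by a finite
set `Γ` of algebraic numbers. In particular the Zilber-Pink conjecture holds, for ALL families, for the curves at
all times outside of a set of density zero.

Examples: (1) `c_t = (⌊b ^ t ξ_i⌋)_i` for ANY vector `ξ` of real numbers which is normal to the base `b ≥ 2`: the
parameters are read off, digit by digit, from the expansions of the numbers `ξ_i`; (2) the orbit of any vector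
`v ≠ 0` along ANY normal word in matrices which generate the special linear group modulo all `q` prime to
some `q₀` (generators of a thin group); (3) vectors of integers whose digits are chosen from a restricted set
of vectors.

Proof. The local theorem of the starting library (`Y226.ZR.rand_prime`: if a prime `p > 16 (d + 1)^4` divides `m` and
no resultant, everything is bounded in terms of `p`, `n`, `d`). The vectors for which no prime `p ≤ T` can be used
are contained in few residue classes modulo a product `q` of primes, and the normal orbit modulo `q` is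
equidistributed in the set of the vectors which it can reach (engine `Pool.Agent.U125.NO`).
-/

set_option autoImplicit false

namespace Pool.Agent.Results.MP_130685_nt.NormalSequences

open Filter
open Pool.Agent.U125.NO (NormalOrbit Examples examples)
open Pool.Agent.Results.MP_130685_nt.RandomOrbits

/-- the proof for one normal orbit -/
theorem one {J : Type} [Fintype J] [DecidableEq J] {c : ℕ → Option J → ℤ} (hc : NormalOrbit c)
    (n d : ℕ) (hd : 0 < d) (A : Coeffs n d (MvPolynomial J ℤ)) (hA : NoCommonZeros A)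
    (Γ : Finset ℂ) (hΓ : ∀ γ ∈ Γ, IsAlgebraic ℚ γ) (ε : ℝ) (hε : 0 < ε) :
    ∃ G : ℕ, ∀ᶠ N : ℕ in atTop,
      ({t : ℕ | t < N ∧ ¬ ZilberPink (Γ : Set ℂ) G (member A (c t))}.ncard : ℝ) ≤ ε * N := by
  classical
  set R : MvPolynomial J ℤ := MvPolynomial.aeval A (Pool.Agent.Y226.ZR.Rr n d) with hR
  have hR0 : R ≠ 0 := by
    rw [hR]
    unfold Pool.Agent.Y226.ZR.Rr
    rw [map_mul, map_prod, map_prod]
    refine mul_ne_zero (Finset.prod_ne_zero_iff.2 fun i _ => ?_)
      (Finset.prod_ne_zero_iff.2 fun q hq => ?_)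
    · have h1 := Pool.Agent.Y226.ZR.rs1_map
        (MvPolynomial.aeval A : MvPolynomial (Pool.Agent.Y226.ZR.Idx n d) ℤ →ₐ[ℤ] MvPolynomial J ℤ).toRingHom
        (MvPolynomial.X : Pool.Agent.Y226.ZR.Idx n d → MvPolynomial (Pool.Agent.Y226.ZR.Idx n d) ℤ) i
      simp only [AlgHom.toRingHom_eq_coe, RingHom.coe_coe, MvPolynomial.aeval_X] at h1
      rw [h1]
      exact hA.1 i
    · have h1 := Pool.Agent.Y226.ZR.rs2_map
        (MvPolynomial.aeval A : MvPolynomial (Pool.Agent.Y226.ZR.Idx n d) ℤ →ₐ[ℤ] MvPolynomial J ℤ).toRingHom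
        (MvPolynomial.X : Pool.Agent.Y226.ZR.Idx n d → MvPolynomial (Pool.Agent.Y226.ZR.Idx n d) ℤ) q.1 q.2
      simp only [AlgHom.toRingHom_eq_coe, RingHom.coe_coe, MvPolynomial.aeval_X] at h1
      rw [h1]
      exact hA.2 q.1 q.2 (Finset.mem_filter.1 hq).2
  have hReval : ∀ u : J → ℤ, MvPolynomial.eval u R =
      MvPolynomial.eval (fun a => MvPolynomial.eval u (A a)) (Pool.Agent.Y226.ZR.Rr n d) := by
    intro u
    rw [hR, MvPolynomial.map_aeval]
    have e : (MvPolynomial.eval u).comp (algebraMap ℤ (MvPolynomial J ℤ)) = RingHom.id ℤ :=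
      Subsingleton.elim _ _
    rw [e]
    rfl
  have hden : ∀ γ : ℂ, ∃ m : ℕ, γ ∈ Γ → 0 < m ∧ IsIntegral ℤ ((m : ℂ) * γ) := by
    intro γ
    by_cases h : γ ∈ Γ
    · obtain ⟨m, hm⟩ := Pool.Agent.Y226.ZR.exists_den (hΓ γ h)
      exact ⟨m, fun _ => hm⟩
    · exact ⟨0, fun h' => absurd h' h⟩
  choose M hM using hden
  set T₀ := 16 * (d + 1) ^ 4 + ∑ γ ∈ Γ, M γ with hT₀
  obtain ⟨T', hT'⟩ := Pool.Agent.U125.NO.mult_normal hc hR0 T₀ ε hε
  have hpr : ∀ p : ℕ, ∃ G : ℕ, p.Prime → 16 * (d + 1) ^ 4 < p →
      ∀ (m : ℤ) (c : Coeffs n d ℤ), m ≠ 0 → (p : ℤ) ∣ m →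
      ¬ (p : ℤ) ∣ MvPolynomial.eval c (Pool.Agent.Y226.ZR.Rr n d) →
      ∀ Γ : Finset ℂ, (∀ γ ∈ Γ, ∃ m : ℕ, ¬ p ∣ m ∧ IsIntegral ℤ ((m : ℂ) * γ)) →
      ZilberPink (Γ : Set ℂ) G (curve m c) := by
    intro p
    by_cases h : p.Prime ∧ 16 * (d + 1) ^ 4 < p
    · obtain ⟨G, hG⟩ := good_of_prime n d hd p h.1 h.2
      exact ⟨G, fun _ _ => hG⟩
    · exact ⟨0, fun h1 h2 => absurd ⟨h1, h2⟩ h⟩
  choose Gp hGp using hpr
  refine ⟨∑ p ∈ Finset.range (T' + 1), Gp p, ?_⟩
  filter_upwards [hT'] with N hN
  refine le_trans ?_ hN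
  refine Nat.cast_le.2 (Set.ncard_le_ncard ?_ ((Set.finite_Iio N).subset fun t ht => ht.1))
  rintro t ⟨ht, hbad⟩
  refine ⟨ht, fun ⟨h0, p, hp, hpT₀, hpT', hpm, hpR⟩ => hbad ?_⟩
  have hpD : 16 * (d + 1) ^ 4 < p := by omega
  have hΓp : ∀ γ ∈ Γ, ∃ m : ℕ, ¬ p ∣ m ∧ IsIntegral ℤ ((m : ℂ) * γ) := by
    intro γ hγ
    obtain ⟨h5, h6⟩ := hM γ hγ
    refine ⟨M γ, fun h7 => ?_, h6⟩
    have h8 := Nat.le_of_dvd h5 h7
    have h9 : M γ ≤ ∑ γ ∈ Γ, M γ := Finset.single_le_sum (fun _ _ => Nat.zero_le _) hγ
    omega
  have hle : Gp p ≤ ∑ p ∈ Finset.range (T' + 1), Gp p :=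
    Finset.single_le_sum (fun _ _ => Nat.zero_le _) (Finset.mem_range.2 (by omega))
  rw [hReval] at hpR
  exact zilberPink_mono hle (hGp p hp hpD _ _ h0 hpm hpR Γ hΓp)

/-- **Zilber-Pink along normal orbits, for arbitrary families of rational curves in `Y(1)^n`.** -/
theorem result :
    (∀ (J : Type) [Fintype J] [DecidableEq J] (c : ℕ → Option J → ℤ), NormalOrbit c →
      ∀ (n d : ℕ), 0 < d → ∀ A : Coeffs n d (MvPolynomial J ℤ), NoCommonZeros A →
      ∀ Γ : Finset ℂ, (∀ γ ∈ Γ, IsAlgebraic ℚ γ) → ∀ ε : ℝ, 0 < ε →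
        ∃ G : ℕ, ∀ᶠ N : ℕ in atTop,
          ({t : ℕ | t < N ∧ ¬ ZilberPink (Γ : Set ℂ) G (member A (c t))}.ncard : ℝ) ≤ ε * N) ∧
    ∀ (J : Type) [Fintype J] [DecidableEq J], Examples (Option J) :=
  ⟨fun J _ _ c hc n d hd A hA Γ hΓ ε hε => one hc n d hd A hA Γ hΓ ε hε, fun J _ _ => examples _⟩

end Pool.Agent.Results.MP_130685_nt.NormalSequences
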