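import Pool.Agent.U163.ZP.Elim
import Pool.Agent.U163.ZP.Box
import Pool.Agent.Results.MP_130685_nt.CornerCriterion

/-!
# MP_130685_nt: the Zilber-Pink conjecture in `Y(1)^n` for subvarieties given by equations, with several
parameters and `m + 2 + r` functions

`Y(1)^n` is identified with `ℂ^n` by the elliptic modular function. As in the file `CornerCriterion` of
this problem let `V ⊂ Y(1)^n` be a subvariety of dimension `m` given by an equation
`G_J (u_j, j ∈ J) = 0` for each set `J` of `m + 1` coordinates, all of whose `2^(m + 1)` corner coefficients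
(the coefficients of the monomials `∏_{j ∈ I} u_j^(d_j)`, `I ⊆ J`, `d_j` bounds for the degrees) are not zero.
Every `V` of dimension `m` has such equations after general translations and inversions of the
coordinates. For a vector `c` of positive integers let `V_c` be the scaled set, given by the equations
`G_J (c_j s_j, j ∈ J) = 0` (`given`), where `s_j = x_j` for level one, and in general `s_j` is a function
integral over `K[x_j]`, `R_j (s_j, x_j) = 0`, so that subvarieties of products of modular curves of any
levels are included. `T` bounds the degrees of the `R_j` (`T = 1` for level one).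

Let `W ⊆ 𝔸^ν` be an irreducible affine variety over `ℚ` of dimension at most `r` (the parameter space),
given by its prime ideal `P`, and let `F_1, …, F_M` be polynomials over `ℤ`, `M ≥ L + 1 + r`, such that any
`r + 1` of the functions `F_l` on `W` are multiplicatively independent modulo constants. The parameters
`t` are the integral points of `W` at which the `F_l` have almost coprime values: the common prime
divisors of two different values `F_l (t)`, `F_l' (t)` are at most `b`; moreover for `l` in a given set
`U` the value `F_l (t)` is composed of primes `≤ b` (`Admissible`). We study the scalings by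

`c_i (t) = ∏_l |F_l (t)| ^ e_{l i}`.

**Theorem.** There is a function `H` on `W`, not identically zero, such that for ALL exponents `e`,
positive for `l ∉ U` and such that the exponents for any `L + 1` indices `l ∉ U` are independent
(`Independent`), and for all admissible `t` with `H (t) ≠ 0`: every irreducible closed subset of
`V_{c (t)} ∩ Z`, `Z` special, has dimension at most `dim Z + m - n + m / L` (`SmallExcess`; the same bound
holds for the transcendence degrees of the points over `K`), and for `L > m` the set `V_{c (t)}` has no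
atypical subvariety at all (`NoAtypical`). So `M = m + 2 + r` functions are sufficient for the conclusion
of the conjecture for all admissible parameters outside of one proper closed subset of `W`, for any `n`.
If `W` is a cone and the `F_l` are forms, then `H` can be taken to be a form. The constant coordinates
of `Z` can be special points or numbers integral over `ℤ[Γ]`.

In particular (second part) let `F_1, …, F_M` be nonconstant polynomials in `r` variables over `ℤ`,
pairwise coprime over `ℚ`, `M ≥ L + 1 + r`. Then all exceptional `t ∈ ℤ^r` at which the values of the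
`F_l` are almost coprime are on one hypersurface `H = 0` (a cone, if the `F_l` are forms).

The file `CornerCriterion` needs `n (n - 1) / 2 + 1` places and has theorems with one integral parameter
(a power of `log H` exceptions); the other files of this problem have one parameter, or parameters in
boxes, or systems with random coefficients. My file `MP_22337f_ag.SeveralParameters` is about the images
`c_i s_i = f_i (y)` of projective sets with divisors in general position; here the sets are given
implicitly.

Proof. The criterion with `L + 1` large primes is proved in the helper file `U163/ZP/Box.lean` (at a place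
above a prime `p` all but `m` of the numbers `c_i s_i` are units because of the corner coefficients; then
the combinatorial core of `Pool.Agent.R424.FD` of the starting library). If the conclusion does not hold
for `t` then at most `L` of the values `F_l (t)` have a prime divisor `> max (D, b)`. So `r + 1` of them are
`S`-units for a fixed finite set `S`. There is an algebraic relation between these `r + 1` functions on `W`;
a relation with the smallest number of terms has at least two terms and no vanishing subsum on `W`. Its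
value at `t` is a sum of `S`-units which is zero; hence a proper subsum vanishes at `t`, or the ratio of
two of the terms, which is not constant on `W` because of the multiplicative independence, has one of
finitely many values (unit equation, starting library).
-/

set_option autoImplicit false

namespace Pool.Agent.Results.MP_130685_nt.SeveralParameters

open MvPolynomial H294ZP Pool.Agent.W282.ZP
open Pool.Agent.Results.MP_130685_nt.CornerCriterion
  (SpecialVariety NoAtypical given valueAt DegreeBounds CornersNe)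

/-- Any `r + 1` of the functions `F l` are multiplicatively independent modulo constants on the variety
of the prime ideal `P`. -/
def MultIndependent {ν M : ℕ} (P : Ideal (MvPolynomial (Fin ν) ℚ)) (r : ℕ)
    (F : Fin M → MvPolynomial (Fin ν) ℤ) : Prop :=
  ∀ s : Finset (Fin M), s.card = r + 1 → ∀ a a' : Fin M → ℕ, (∀ l, l ∉ s → a l = 0 ∧ a' l = 0) →
    a ≠ a' → ∀ α : ℚ, ∏ l, map (Int.castRingHom ℚ) (F l) ^ a l -
      C α * ∏ l, map (Int.castRingHom ℚ) (F l) ^ a' l ∉ P

/-- The admissible parameters `t`: integral points of the variety of `P` such that the values of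
two different `F l` have no common prime divisor larger than `b`, and the values of the `F l` with
`l ∈ U` have no prime divisor larger than `b`. -/
def Admissible {ν M : ℕ} (P : Ideal (MvPolynomial (Fin ν) ℚ)) (F : Fin M → MvPolynomial (Fin ν) ℤ)
    (U : Finset (Fin M)) (b : ℕ) (t : Fin ν → ℤ) : Prop :=
  (∀ f ∈ P, eval (fun i => (t i : ℚ)) f = 0) ∧
  (∀ l ∈ U, ∀ p : ℕ, p.Prime → (p : ℤ) ∣ eval t (F l) → p ≤ b) ∧
  ∀ l l', l ≠ l' → ∀ p : ℕ, p.Prime → (p : ℤ) ∣ eval t (F l) → (p : ℤ) ∣ eval t (F l') → p ≤ b

/-- The vectors `e 0, …, e L` are positive and independent modulo squares and primes up to `T`: if `A l`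
are sets of coordinates with an even number of elements, not all empty, and every coordinate lies in an
even number of them, then `q ∏_l ∏_{i ∈ A l} e l i` is not a square, for any positive integer `q` which
is at most `T` to the power `2 ∑ |A l|` and has no prime factor larger than `T`. -/
def Independent {n : ℕ} (L T : ℕ) (e : Fin (L + 1) → Fin n → ℕ) : Prop :=
  (∀ l i, 0 < e l i) ∧ ∀ A : Fin (L + 1) → Finset (Fin n),
    (∃ l, (A l).Nonempty) → (∀ l, Even (A l).card) →
    (∀ i, Even (Finset.univ.filter fun l => i ∈ A l).card) →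
    ∀ q, 0 < q → (∀ p, p.Prime → p ∣ q → p ≤ T) → q ≤ T ^ (2 * ∑ l, (A l).card) →
      ¬ IsSquare (q * ∏ l, ∏ i ∈ A l, e l i)

/-- The vector `c (t)` of the integers `∏_l |F_l (t)| ^ e_{l i}`. -/
noncomputable def scaling {n ν M : ℕ} (F : Fin M → MvPolynomial (Fin ν) ℤ) (e : Fin M → Fin n → ℕ)
    (t : Fin ν → ℤ) : Fin n → ℕ :=
  fun i => ∏ l, (eval t (F l)).natAbs ^ e l i

/-- The excess of the intersections of `X` with special subvarieties `Z` is at most `m / L`: every
irreducible closed subset `A` of `X ∩ Z` has dimension at most `dim Z + m - n + m / L`, and every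
point of `X ∩ Z` has transcendence degree at most `dim Z + m - n + m / L` over `K`. -/
def SmallExcess {Λ : Type} [CommRing Λ] (f : Λ →+* ℂ) (K : Subfield ℂ) {n : ℕ} (L m : ℕ)
    (X : Set (Fin n → ℂ)) : Prop :=
  ∀ (r : ℕ) (Z : SpecialVariety f n r),
    (∀ A ⊆ X ∩ Z.locus, zcl A ⊆ A → (idealOf A).IsPrime →
      (L : Cardinal) * (zdim A + (n : Cardinal)) ≤
        (L : Cardinal) * (r : Cardinal) + ((L : Cardinal) + 1) * (m : Cardinal)) ∧
    ∀ x ∈ X ∩ Z.locus, ∀ S : Finset (Fin n), AlgebraicIndependent K (fun i : S => x i) →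
      L * (S.card + n) ≤ L * r + (L + 1) * m

theorem even_pow_prod {n : ℕ} (A : Finset (Fin n)) (hA : Even A.card) (e : Fin n → ℕ) (v : ℕ) :
    ∏ i ∈ A, (e i * v) = (v ^ (A.card / 2)) ^ 2 * ∏ i ∈ A, e i := by
  rw [Finset.prod_mul_distrib, Finset.prod_const, mul_comm, ← pow_mul]
  obtain ⟨k, hk⟩ := hA
  have h1 : A.card / 2 * 2 = A.card := by omega
  rw [h1]

theorem spread_of {n ν M L T : ℕ} (F : Fin M → MvPolynomial (Fin ν) ℤ) (D : ℕ)
    (t : Fin ν → ℤ) (ht0 : ∀ l, eval t (F l) ≠ 0) (j : Fin (L + 1) → Fin M)
    (p : Fin (L + 1) → ℕ) (hp : ∀ a, (p a).Prime ∧ D < p a ∧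
      (p a : ℤ) ∣ eval t (F (j a)) ∧ ∀ l', l' ≠ j a → ¬ (p a : ℤ) ∣ eval t (F l'))
    (e : Fin M → Fin n → ℕ) (he : Independent L T fun a => e (j a)) :
    Pool.Agent.U163.ZP.SpreadE L T D (scaling F e t) := by
  classical
  have hfac : ∀ (a : Fin (L + 1)) (i : Fin n), (scaling F e t i).factorization (p a) =
      e (j a) i * (eval t (F (j a))).natAbs.factorization (p a) := by
    intro a i
    refine Pool.Agent.U163.ZP.factorization_prod_exact (fun l => (eval t (F l)).natAbs)
      (fun l => Int.natAbs_ne_zero.2 (ht0 l)) (fun l => e l i) (j a) fun l hl hd => ?_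
    exact (hp a).2.2.2 l hl (Int.natCast_dvd.2 hd)
  have hpos : ∀ a : Fin (L + 1), 0 < (eval t (F (j a))).natAbs.factorization (p a) := fun a =>
    (hp a).1.factorization_pos_of_dvd (Int.natAbs_ne_zero.2 (ht0 _)) (Int.natCast_dvd.1 (hp a).2.2.1)
  refine ⟨p, fun a => ⟨(hp a).1, (hp a).2.1, fun i => ?_⟩, ?_⟩
  · rw [hfac]
    exact Nat.mul_pos (he.1 a i) (hpos a)
  · intro A hne heven hcov q hq0 hqT hq hsq
    have h1 : q * ∏ l, ∏ i ∈ A l, (scaling F e t i).factorization (p l) =
        (∏ l, (eval t (F (j l))).natAbs.factorization (p l) ^ ((A l).card / 2)) ^ 2 *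
          (q * ∏ l, ∏ i ∈ A l, e (j l) i) := by
      have h2 : ∀ l, ∏ i ∈ A l, (scaling F e t i).factorization (p l) =
          ((eval t (F (j l))).natAbs.factorization (p l) ^ ((A l).card / 2)) ^ 2 *
            ∏ i ∈ A l, e (j l) i := by
        intro l
        rw [← even_pow_prod (A l) (heven l)]
        exact Finset.prod_congr rfl fun i _ => hfac l i
      rw [Finset.prod_congr rfl fun l _ => h2 l, Finset.prod_mul_distrib, Finset.prod_pow]
      ring
    change IsSquare (q * ∏ l, ∏ i ∈ A l, (scaling F e t i).factorization (p l)) at hsq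
    rw [h1] at hsq
    refine he.2 A hne heven hcov q hq0 hqT hq (Pool.Agent.R424.FD.isSquare_cancel ?_ ?_ hsq)
    · exact pow_pos (Finset.prod_pos fun l _ => pow_pos (hpos l) _) 2
    · exact ⟨_, pow_two _⟩

theorem lt_excess {L m a r : ℕ} (hL : m < L) (h : L * a ≤ L * r + (L + 1) * m) : a ≤ r + m := by
  by_contra hcon
  push Not at hcon
  have h1 : L * (r + m + 1) ≤ L * a := Nat.mul_le_mul_left L hcon
  have h2 : L * (r + m + 1) = L * r + (L + 1) * m + (L - m) := by
    obtain ⟨u, rfl⟩ := Nat.exists_eq_add_of_lt hL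
    have h3 : m + u + 1 - m = u + 1 := by omega
    rw [h3]
    ring
  omega

/-- The criterion for scalings which are spread out at `L + 1` large primes. -/
theorem criterion (K : Subfield ℂ) [Countable K] (n m T : ℕ)
    (R : Fin n → Polynomial (Polynomial K)) (hR : ∀ i, (R i).Monic)
    (hT : ∀ i u w, ((R i).coeff u).coeff w ≠ 0 → u ≤ T ∧ w ≤ T)
    (G : ∀ J : Finset (Fin n), MvPolynomial J K) (d : ∀ J : Finset (Fin n), J → ℕ)
    (hd : DegreeBounds m G d) (hcor : CornersNe (RingHom.id K) m G d)
    (Γ : Finset ℂ) (hΓ : ∀ γ ∈ Γ, γ ∈ K) :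
    ∃ D : ℕ, ∀ (L : ℕ) (c : Fin n → ℕ), Pool.Agent.U163.ZP.SpreadE L T D c →
      SmallExcess (algebraMap (Algebra.adjoin ℤ (Γ : Set ℂ)) ℂ) K L m
          (given K.subtype m R G fun i => (c i : K)) ∧
        (m < L → NoAtypical (algebraMap (Algebra.adjoin ℤ (Γ : Set ℂ)) ℂ) K m
          (given K.subtype m R G fun i => (c i : K))) := by
  classical
  obtain ⟨D, hD⟩ := Pool.Agent.U163.ZP.boxE K (m := m) R hR hT G d hd hcor Γ hΓ
  refine ⟨D, fun L c hc => ?_⟩
  have hpt : ∀ (r : ℕ) (Z : SpecialVariety (algebraMap (Algebra.adjoin ℤ (Γ : Set ℂ)) ℂ) n r),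
      ∀ x ∈ given K.subtype m R G (fun i => (c i : K)) ∩ Z.locus,
      ∀ S : Finset (Fin n), AlgebraicIndependent K (fun i : S => x i) →
        L * (S.card + n) ≤ L * r + (L + 1) * m := by
    rintro r Z x ⟨⟨s, hs, hG⟩, hxZ⟩ S hS
    obtain ⟨z, hz⟩ := hxZ
    have hdt : ∀ i, 0 < (Z.mat i).det.toNat := fun i => by
      have := Z.det_pos i
      omega
    refine hD L c hc r Z.cls (fun i => (Z.mat i).det.toNat) x s hdt ?_ ?_ hs ?_ S hS
    · intro i hi
      rw [(hz i).1 hi]
      rcases Z.allowed i with ⟨τ, hτ, hc⟩ | h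
      · rw [hc]
        exact (singular_modulus_integral τ hτ).tower_top
      · exact h
    · intro i j l hi hj
      obtain ⟨w, hw, hxw⟩ := (hz i).2 l hi
      obtain ⟨w', hw', hxw'⟩ := (hz j).2 l hj
      have hmul : (Z.mat i).det.toNat * (Z.mat j).det.toNat =
          ((Z.mat i).det * (Z.mat j).det).toNat := by
        have h1 := Z.det_pos i
        have h2 := Z.det_pos j
        rw [Int.toNat_mul h1.le h2.le]
      refine ⟨?_, ?_⟩
      · obtain ⟨a, b, c, d, e1, e2⟩ := isogeny_rel (Z.det_pos i) hw hw'
        rw [hxw, hxw']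
        exact isogenous_integral w w' a b c d (by
          rw [e1]
          exact mul_pos (Z.det_pos i) (Z.det_pos j)) e2
      · rw [hmul, ← eval_relPoly]
        exact eval_relPoly_eq_zero (Z.det_pos i) (Z.det_pos j) hw hw' hxw hxw'
    · intro J hJ
      have h2 := hG J hJ
      simp only [map_natCast] at h2
      exact h2
  refine ⟨fun r Z => ⟨?_, hpt r Z⟩, fun hL r Z => ⟨?_, fun x hx S hS =>
    lt_excess hL (hpt r Z x hx S hS)⟩⟩
  · intro A' hA' hcl' hprime
    obtain ⟨x, hxW, T', hT', hdim⟩ := Pool.Agent.W466.ZC.generic_dim K A' hprime hcl'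
    have h2 := hpt r Z x (hA' hxW) T' hT'
    calc (L : Cardinal) * (zdim A' + (n : Cardinal)) ≤
          (L : Cardinal) * ((T'.card : Cardinal) + (n : Cardinal)) := by gcongr
      _ = ((L * (T'.card + n) : ℕ) : Cardinal) := by push_cast; rfl
      _ ≤ ((L * r + (L + 1) * m : ℕ) : Cardinal) := by exact_mod_cast h2
      _ = (L : Cardinal) * (r : Cardinal) + ((L : Cardinal) + 1) * (m : Cardinal) := by
          push_cast; rfl
  · intro A' hA' hcl' hprime
    obtain ⟨x, hxW, T', hT', hdim⟩ := Pool.Agent.W466.ZC.generic_dim K A' hprime hcl'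
    have h2 := lt_excess hL (hpt r Z x (hA' hxW) T' hT')
    calc zdim A' + (n : Cardinal) ≤ (T'.card : Cardinal) + (n : Cardinal) := by gcongr
      _ = ((T'.card + n : ℕ) : Cardinal) := by push_cast; rfl
      _ ≤ ((r + m : ℕ) : Cardinal) := by exact_mod_cast h2
      _ = (r : Cardinal) + (m : Cardinal) := by push_cast; rfl

/-- **Zilber-Pink in `Y(1)^n` for sets given by equations with several parameters.** -/
theorem result (K : Subfield ℂ) [Countable K] (n m T : ℕ)
    (R : Fin n → Polynomial (Polynomial K)) (hR : ∀ i, (R i).Monic)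
    (hT : ∀ i u w, ((R i).coeff u).coeff w ≠ 0 → u ≤ T ∧ w ≤ T)
    (G : ∀ J : Finset (Fin n), MvPolynomial J K) (d : ∀ J : Finset (Fin n), J → ℕ)
    (hd : DegreeBounds m G d) (hcor : CornersNe (RingHom.id K) m G d)
    (Γ : Finset ℂ) (hΓ : ∀ γ ∈ Γ, γ ∈ K)
    (L M r : ℕ) (hM : L + 1 + r ≤ M) (U : Finset (Fin M)) (b : ℕ) :
    (∀ (ν : ℕ) (P : Ideal (MvPolynomial (Fin ν) ℚ)), P.IsPrime →
      Algebra.trdeg ℚ (MvPolynomial (Fin ν) ℚ ⧸ P) ≤ r →
      ∀ F : Fin M → MvPolynomial (Fin ν) ℤ, MultIndependent P r F →
      ∃ H : MvPolynomial (Fin ν) ℚ, H ∉ P ∧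
        ((∀ f ∈ P, ∀ j, homogeneousComponent j f ∈ P) → (∀ l, ∃ j, (F l).IsHomogeneous j) →
          ∃ j, H.IsHomogeneous j) ∧
        ∀ e : Fin M → Fin n → ℕ, (∀ j : Fin (L + 1) → Fin M, Function.Injective j →
            (∀ a, j a ∉ U) → Independent L T fun a => e (j a)) →
          ∀ t, Admissible P F U b t → eval (fun i => (t i : ℚ)) H ≠ 0 →
          SmallExcess (algebraMap (Algebra.adjoin ℤ (Γ : Set ℂ)) ℂ) K L m
              (given K.subtype m R G fun i => (scaling F e t i : K)) ∧
            (m < L → NoAtypical (algebraMap (Algebra.adjoin ℤ (Γ : Set ℂ)) ℂ) K m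
              (given K.subtype m R G fun i => (scaling F e t i : K)))) ∧
    ∀ F : Fin M → MvPolynomial (Fin r) ℤ, (∀ l, 0 < (F l).totalDegree) →
      (∀ l l', l ≠ l' → IsRelPrime (map (Int.castRingHom ℚ) (F l)) (map (Int.castRingHom ℚ) (F l'))) →
      ∃ H : MvPolynomial (Fin r) ℚ, H ≠ 0 ∧
        ((∀ l, ∃ j, (F l).IsHomogeneous j) → ∃ j, H.IsHomogeneous j) ∧
        ∀ e : Fin M → Fin n → ℕ, (∀ j : Fin (L + 1) → Fin M, Function.Injective j →
            (∀ a, j a ∉ U) → Independent L T fun a => e (j a)) →
          ∀ t, Admissible ⊥ F U b t → eval (fun i => (t i : ℚ)) H ≠ 0 →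
          SmallExcess (algebraMap (Algebra.adjoin ℤ (Γ : Set ℂ)) ℂ) K L m
              (given K.subtype m R G fun i => (scaling F e t i : K)) ∧
            (m < L → NoAtypical (algebraMap (Algebra.adjoin ℤ (Γ : Set ℂ)) ℂ) K m
              (given K.subtype m R G fun i => (scaling F e t i : K))) := by
  classical
  obtain ⟨D, hD⟩ := criterion K n m T R hR hT G d hd hcor Γ hΓ
  have main : ∀ (ν : ℕ) (P : Ideal (MvPolynomial (Fin ν) ℚ)), P.IsPrime →
      Algebra.trdeg ℚ (MvPolynomial (Fin ν) ℚ ⧸ P) ≤ r →
      ∀ F : Fin M → MvPolynomial (Fin ν) ℤ, MultIndependent P r F →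
      ∃ H : MvPolynomial (Fin ν) ℚ, H ∉ P ∧
        ((∀ f ∈ P, ∀ j, homogeneousComponent j f ∈ P) → (∀ l, ∃ j, (F l).IsHomogeneous j) →
          ∃ j, H.IsHomogeneous j) ∧
        ∀ e : Fin M → Fin n → ℕ, (∀ j : Fin (L + 1) → Fin M, Function.Injective j →
            (∀ a, j a ∉ U) → Independent L T fun a => e (j a)) →
          ∀ t, Admissible P F U b t → eval (fun i => (t i : ℚ)) H ≠ 0 →
          SmallExcess (algebraMap (Algebra.adjoin ℤ (Γ : Set ℂ)) ℂ) K L m
              (given K.subtype m R G fun i => (scaling F e t i : K)) ∧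
            (m < L → NoAtypical (algebraMap (Algebra.adjoin ℤ (Γ : Set ℂ)) ℂ) K m
              (given K.subtype m R G fun i => (scaling F e t i : K))) := by
    intro ν P hP hr F hF
    obtain ⟨H, hH, hhom, hcore⟩ := Pool.Agent.U163.ZP.core P (L + 1) r (Nat.succ_pos _) hM hr F
      (fun s hs a a' ha ha' hne α => hF s hs a a'
        (fun l hl => ⟨Finsupp.notMem_support_iff.1 fun h => hl (ha h),
          Finsupp.notMem_support_iff.1 fun h => hl (ha' h)⟩)
        (fun h => hne (DFunLike.coe_injective h)) α) U D b
    refine ⟨H, hH, hhom, fun e he t ht htH => hD L _ ?_⟩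
    obtain ⟨ht0, j, hj, hjU, p, hp⟩ := hcore t ht.1 ht.2.1 ht.2.2 htH
    exact spread_of F D t ht0 j p hp e (he j hj hjU)
  refine ⟨main, fun F hF1 hF2 => ?_⟩
  obtain ⟨H, hH, hhom, h⟩ := main r ⊥ Ideal.isPrime_bot (Pool.Agent.U163.ZP.trdeg_bot r) F (by
    intro s _ a a' _ hne α
    exact Pool.Agent.U163.ZP.not_mem_bot (fun l => Pool.Agent.U163.ZP.toQ_ne_zero (hF1 l))
      (fun l => Pool.Agent.U163.ZP.not_isUnit_toQ (hF1 l)) hF2 hne α)
  refine ⟨H, fun h0 => hH (Ideal.mem_bot.2 h0), fun h1 => hhom ?_ h1, h⟩
  intro f hf j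
  rw [Ideal.mem_bot] at hf ⊢
  rw [hf, map_zero]

end Pool.Agent.Results.MP_130685_nt.SeveralParameters
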